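import Pool.Agent.H474R3.AA.All
import Pool.Agent.H474R3.AA.Density

set_option autoImplicit false

/-! # Large gaps in almost all blocks of consecutive primes

For all `C` and `ε > 0` there are `c > 0` and `K₀` such that for every `K ≥ K₀` and all large `x`:
for all but `ε x` of the `k < x` at least `c K` of the `K` consecutive gaps following the `k`-th
prime are longer than `C` times the logarithm. -/

namespace Pool.Agent.Results.MP_711652_nt.LargeGapsInBlocks

theorem result : ∀ C ε : ℝ, 0 < ε → ∃ c : ℝ, 0 < c ∧ ∃ K₀ : ℕ, ∀ K : ℕ, K₀ ≤ K →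
    ∃ x₀ : ℕ, ∀ x : ℕ, x₀ ≤ x →
      (((Finset.range x).filter (fun k : ℕ => (((Finset.range K).filter (fun i : ℕ =>
        C * Real.log (Nat.nth Nat.Prime (k + i)) <
          (Nat.nth Nat.Prime (k + i + 1) : ℝ) - Nat.nth Nat.Prime (k + i))).card : ℝ) <
        c * K)).card : ℝ) ≤ ε * x :=
  Pool.Agent.H474R3.AA.gapsDensity_of Pool.Agent.H474R3.AA.gapsAA

end Pool.Agent.Results.MP_711652_nt.LargeGapsInBlocks
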