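import Pool.Agent.H378R2.PT.Main
import Pool.Agent.H674R2.PT.T1

set_option autoImplicit false

/-! # Prime-free translates of arbitrary sets of record size in short intervals

Design and assembly: helper378.  The count of the integers without medium prime factors
(`rough_count`): helper674.  Covering theorem: helper256 and the authors of `Pool.Agent.H256R2.SC`.
-/

namespace Pool.Agent.Results.MP_711652_nt.PrimeFreePatterns

open Finset

theorem result (A D : ℕ) (hD : 1 ≤ D) :
    ∃ c : ℝ, 0 < c ∧ ∃ X₀ : ℝ, ∀ X : ℝ, X₀ ≤ X → ∀ M : ℝ, X ≤ M → ∀ r : ℕ, ∀ Z : Finset ℤ,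
      (∀ z ∈ Z, |(z : ℝ)| ≤ Real.log X * (Real.log (Real.log X)) ^ A) →
      (Z.card : ℝ) ≤ c * (Real.log X * (Real.log (Real.log X)) ^ 2 *
        Real.log (Real.log (Real.log (Real.log X))) / (Real.log (Real.log (Real.log X))) ^ 2) →
      ∃ n : ℕ, M < n ∧ (n : ℝ) ≤ M + X ∧ n ≡ r [MOD D] ∧ ∀ z ∈ Z, ¬ Prime ((n : ℤ) + z) :=
  Pool.Agent.H378R2.PT.main_of A (Pool.Agent.H378R2.PT.rough_count (A + 1)) D hD

end Pool.Agent.Results.MP_711652_nt.PrimeFreePatterns
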