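import Pool.Agent.H474R4.QB.Main

set_option autoImplicit false

/-! # A quarter of all blocks of length `K log X` contains many isolated clusters of `m` primes

For all `m`, `ε`, `Λ`, `η > 0` there is `c > 0` such that for every `K ≥ K₀` and all large `X`: for
at least `(1/4 - η) X` of the `n ∈ [X, 2X)` the interval `(n, n + K log X]` contains at least `c K`
primes `p` such that `[p, p + ε log p]` contains at least `m` primes and all the other integers at
distance at most `Λ log p` from `p` are composite. -/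

open Finset

namespace Pool.Agent.Results.MP_711652_nt.QuarterOfBlocks

/-- `p` is a prime, the interval `[p, p + ε log p]` contains at least `m` primes, and every prime
`q` with `|q - p| ≤ Λ log p` lies in this interval -/
def IsoCluster (m : ℕ) (ε Λ : ℝ) (p : ℕ) : Prop :=
  p.Prime ∧ m ≤ ((Icc p (p + ⌊ε * Real.log p⌋₊)).filter Nat.Prime).card ∧
    ∀ q : ℕ, q.Prime → |(q : ℝ) - p| ≤ Λ * Real.log p → p ≤ q ∧ (q : ℝ) ≤ p + ε * Real.log p

open Classical in
theorem result : ∀ (m : ℕ) (ε Λ η : ℝ), 0 < ε → 0 < Λ → 0 < η → ∃ c : ℝ, 0 < c ∧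
    ∃ K₀ : ℝ, ∀ K : ℝ, K₀ ≤ K → ∃ X₀ : ℕ, ∀ X : ℕ, X₀ ≤ X →
    (1 / 4 - η) * X ≤ (((Ico X (2 * X)).filter (fun n => c * K ≤
      (((Ioc n (n + ⌊K * Real.log X⌋₊)).filter (fun p => IsoCluster m ε Λ p)).card : ℝ))).card :
        ℝ) :=
  Pool.Agent.H474R4.QB.final

end Pool.Agent.Results.MP_711652_nt.QuarterOfBlocks
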